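import Pool.Agent.K1H2.UB.Stm

/-! Project UB, piece LLO: lattice subharmonicity of `(q - 2)^(-1/2)`. -/

set_option autoImplicit false

open Finset Pool.Agent.K1H53.BI Pool.Agent.K1H2.UB

namespace Pool.Agent.K1H97.UB

lemma nsq_cast (y : V) : (nsq y : ℝ) = ∑ i, ((y i : ℝ)) ^ 2 := by
  unfold nsq
  push_cast
  refine Finset.sum_congr rfl fun i _ => ?_
  rw [Nat.cast_natAbs]
  push_cast
  rw [sq_abs]

lemma inv_sqrt_ge (r : ℝ) (h1 : -1 < r) (h2 : r < 1) :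
    1 - r / 2 + 3 / 8 * r ^ 2 - 5 / 16 * r ^ 3 ≤ 1 / √(1 + r) := by
  have hs : 0 < √(1 + r) := Real.sqrt_pos.2 (by linarith)
  rw [le_div_iff₀ hs]
  refine le_of_sq_le_sq ?_ zero_le_one
  rw [mul_pow, Real.sq_sqrt (by linarith : (0:ℝ) ≤ 1 + r)]
  have e : (1 - r / 2 + 3 / 8 * r ^ 2 - 5 / 16 * r ^ 3) ^ 2 * (1 + r) =
      1 - r ^ 4 * (35 / 64 - 14 / 64 * r + 35 / 256 * r ^ 2 - 25 / 256 * r ^ 3) := by ring
  rw [e]
  have h3 : r ^ 3 ≤ 1 := by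
    by_cases h : 0 ≤ r
    · exact pow_le_one₀ h h2.le
    · have : r ^ 3 ≤ 0 := by
        have : r ^ 3 = r * r ^ 2 := by ring
        rw [this]
        exact mul_nonpos_of_nonpos_of_nonneg (by linarith) (sq_nonneg r)
      linarith
  have h4 : 0 ≤ 35 / 64 - 14 / 64 * r + 35 / 256 * r ^ 2 - 25 / 256 * r ^ 3 := by
    nlinarith [sq_nonneg r]
  have h5 : 0 ≤ r ^ 4 := by positivity
  nlinarith [mul_nonneg h5 h4]

lemma pair (Q t : ℝ) (hQ : 0 < Q) (ht : t ^ 2 < Q ^ 2) :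
    1 / √Q * (2 + 3 / 4 * (t ^ 2 / Q ^ 2)) ≤ 1 / √(Q + t) + 1 / √(Q - t) := by
  have habs := abs_lt_of_sq_lt_sq ht hQ.le
  rw [abs_lt] at habs
  have e1 : √(Q + t) = √Q * √(1 + t / Q) := by
    rw [← Real.sqrt_mul hQ.le]; congr 1; field_simp
  have e2 : √(Q - t) = √Q * √(1 + (-t / Q)) := by
    rw [← Real.sqrt_mul hQ.le]; congr 1; field_simp; ring
  have b1 : -1 < t / Q := by rw [lt_div_iff₀ hQ]; linarith [habs.1]
  have b2 : t / Q < 1 := by rw [div_lt_iff₀ hQ]; linarith [habs.2]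
  have h1 := inv_sqrt_ge (t / Q) b1 b2
  have h2 := inv_sqrt_ge (-t / Q) (by rw [neg_div]; linarith) (by rw [neg_div]; linarith)
  have hs : 0 < √Q := Real.sqrt_pos.2 hQ
  rw [e1, e2, ← one_div_mul_one_div, ← one_div_mul_one_div, ← mul_add]
  refine mul_le_mul_of_nonneg_left ?_ (by positivity)
  refine le_trans (le_of_eq ?_) (add_le_add h1 h2)
  field_simp
  ring

/-- `LLO` -/
theorem t_LLO : S_LLO := by
  intro x hx
  set q : ℝ := (nsq x : ℝ) with hq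
  have hq9 : (9 : ℝ) ≤ q := by rw [hq]; exact_mod_cast hx
  obtain ⟨Q, hQ⟩ : ∃ Q : ℝ, Q = q - 1 := ⟨_, rfl⟩
  have hQ8 : 8 ≤ Q := by linarith
  have hQ0 : 0 < Q := by linarith
  have hsum : (x 0 : ℝ) ^ 2 + (x 1 : ℝ) ^ 2 + (x 2 : ℝ) ^ 2 = Q + 1 := by
    have := nsq_cast x
    rw [Fin.sum_univ_three] at this
    rw [hQ, hq]
    linarith
  have hplus : ∀ i : Fin 3, (nsq (x + dir (i, true)) : ℝ) - 2 = Q + 2 * x i := by
    intro i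
    rw [nsq_cast, hQ, hq, nsq_cast x]
    fin_cases i <;> simp [Fin.sum_univ_three, dir, Pi.single_apply] <;> ring
  have hminus : ∀ i : Fin 3, (nsq (x + dir (i, false)) : ℝ) - 2 = Q - 2 * x i := by
    intro i
    rw [nsq_cast, hQ, hq, nsq_cast x]
    fin_cases i <;> simp [Fin.sum_univ_three, dir, Pi.single_apply] <;> ring
  have hti : ∀ i : Fin 3, (2 * (x i : ℝ)) ^ 2 < Q ^ 2 := by
    intro i
    have h1 : (x i : ℝ) ^ 2 ≤ Q + 1 := by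
      fin_cases i
      · show (x 0 : ℝ) ^ 2 ≤ Q + 1
        nlinarith [sq_nonneg (x 1 : ℝ), sq_nonneg (x 2 : ℝ)]
      · show (x 1 : ℝ) ^ 2 ≤ Q + 1
        nlinarith [sq_nonneg (x 0 : ℝ), sq_nonneg (x 2 : ℝ)]
      · show (x 2 : ℝ) ^ 2 ≤ Q + 1
        nlinarith [sq_nonneg (x 1 : ℝ), sq_nonneg (x 0 : ℝ)]
    nlinarith
  have hp := fun i : Fin 3 => pair Q (2 * x i) hQ0 (hti i)
  have hP : PP (fun y => 1 / √((nsq y : ℝ) - 2)) x =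
      ((1 / √(Q + 2 * x 0) + 1 / √(Q - 2 * x 0)) + (1 / √(Q + 2 * x 1) + 1 / √(Q - 2 * x 1)) +
        (1 / √(Q + 2 * x 2) + 1 / √(Q - 2 * x 2))) / 6 := by
    unfold PP
    rw [Fintype.sum_prod_type, Fin.sum_univ_three, Fintype.sum_bool, Fintype.sum_bool,
      Fintype.sum_bool]
    simp only [hplus, hminus]
  rw [hP]
  have hs : 0 < √Q := Real.sqrt_pos.2 hQ0
  have h1 : 1 / √Q * (1 + 1 / (2 * Q) + 1 / (2 * Q ^ 2)) ≤
      ((1 / √(Q + 2 * x 0) + 1 / √(Q - 2 * x 0)) + (1 / √(Q + 2 * x 1) + 1 / √(Q - 2 * x 1)) +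
        (1 / √(Q + 2 * x 2) + 1 / √(Q - 2 * x 2))) / 6 := by
    have e : 1 / √Q * (1 + 1 / (2 * Q) + 1 / (2 * Q ^ 2)) =
        (1 / √Q * (2 + 3 / 4 * ((2 * (x 0 : ℝ)) ^ 2 / Q ^ 2)) +
          1 / √Q * (2 + 3 / 4 * ((2 * (x 1 : ℝ)) ^ 2 / Q ^ 2)) +
          1 / √Q * (2 + 3 / 4 * ((2 * (x 2 : ℝ)) ^ 2 / Q ^ 2))) / 6 := by
      have e2 : (2 + 3 / 4 * ((2 * (x 0 : ℝ)) ^ 2 / Q ^ 2)) + (2 + 3 / 4 * ((2 * (x 1 : ℝ)) ^ 2 / Q ^ 2)) +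
          (2 + 3 / 4 * ((2 * (x 2 : ℝ)) ^ 2 / Q ^ 2)) = 6 + 3 * (Q + 1) / Q ^ 2 := by
        rw [← hsum]; ring
      rw [← mul_add, ← mul_add, e2]
      field_simp
      ring
    rw [e]
    have := hp 0
    have := hp 1
    have := hp 2
    linarith
  refine le_trans ?_ h1
  have e3 : q - 2 = Q * (1 - 1 / Q) := by
    rw [mul_sub, mul_one, mul_one_div_cancel hQ0.ne', hQ]; ring
  have hh : 1 / Q ≤ 1 / 8 := one_div_le_one_div_of_le (by norm_num) hQ8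
  have hh0 : 0 < 1 / Q := by positivity
  rw [e3, Real.sqrt_mul hQ0.le, ← one_div_mul_one_div]
  refine mul_le_mul_of_nonneg_left ?_ (by positivity)
  obtain ⟨h, hh'⟩ : ∃ h : ℝ, h = 1 / Q := ⟨_, rfl⟩
  rw [← hh'] at hh hh0
  have e4 : 1 + 1 / (2 * Q) + 1 / (2 * Q ^ 2) = 1 + h / 2 + h ^ 2 / 2 := by
    rw [hh']; field_simp
  rw [e4, ← hh', div_le_iff₀ (Real.sqrt_pos.2 (by linarith))]
  refine le_of_sq_le_sq ?_ (by positivity)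
  rw [mul_pow, Real.sq_sqrt (by linarith : (0:ℝ) ≤ 1 - h)]
  have e5 : (1 + h / 2 + h ^ 2 / 2) ^ 2 * (1 - h) =
      1 + h ^ 2 * (1 / 4 - 3 / 4 * h - h ^ 2 / 4 - h ^ 3 / 4) := by ring
  rw [e5]
  have h6 : h ^ 2 ≤ 1 := by nlinarith
  have h7 : h ^ 3 ≤ h := by
    have : h ^ 3 = h * h ^ 2 := by ring
    nlinarith
  have h8 : h ^ 2 ≤ h := by nlinarith
  have h9 : 0 ≤ 1 / 4 - 3 / 4 * h - h ^ 2 / 4 - h ^ 3 / 4 := by nlinarith
  nlinarith [mul_nonneg (sq_nonneg h) h9]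

end Pool.Agent.K1H97.UB
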